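import Pool.Agent.Helper45.CF.GoalsB
import Pool.Agent.Helper22.CAR.BD

/-!
Project CF (MP_d97caa_an), packet NUB: nuclearity of continuous fields with fibre the CAR algebra.
-/

open scoped ComplexOrder Topology ComplexConjugate

namespace Pool.Agent.Helper88.CF

open Pool.Agent.Helper45.CF Pool.Agent.Helper34.CAR Pool.Agent.Helper22.CAR

noncomputable section

/-- The block diagonal matrix, with rows and columns numbered. -/
def dd {I : Type} [Fintype I] [DecidableEq I] {m : I → ℕ} {M : ℕ} (e : (Σ i, Fin (m i)) ≃ Fin M)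
    (x : ∀ i, CStarMatrix (Fin (m i)) (Fin (m i)) ℂ) : CStarMatrix (Fin M) (Fin M) ℂ :=
  CStarMatrix.reindexₐ ℂ ℂ e (blk I (fun i => Fin (m i)) x)

section

variable {I : Type} [Fintype I] [DecidableEq I] {m : I → ℕ} {M : ℕ} (e : (Σ i, Fin (m i)) ≃ Fin M)

theorem dd_apply (x : ∀ i, CStarMatrix (Fin (m i)) (Fin (m i)) ℂ) (p q : Fin M) :
    dd e x p q = blk I (fun i => Fin (m i)) x (e.symm p) (e.symm q) := rfl

theorem dd_add (x y : ∀ i, CStarMatrix (Fin (m i)) (Fin (m i)) ℂ) :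
    dd e (x + y) = dd e x + dd e y := by
  unfold dd
  rw [map_add, map_add]

theorem dd_smul (c : ℂ) (x : ∀ i, CStarMatrix (Fin (m i)) (Fin (m i)) ℂ) :
    dd e (c • x) = c • dd e x := by
  unfold dd
  rw [map_smul, map_smul]

theorem dd_mul (x y : ∀ i, CStarMatrix (Fin (m i)) (Fin (m i)) ℂ) :
    dd e (x * y) = dd e x * dd e y := by
  unfold dd
  rw [map_mul, map_mul]

theorem dd_star (x : ∀ i, CStarMatrix (Fin (m i)) (Fin (m i)) ℂ) :
    dd e (star x) = star (dd e x) := by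
  unfold dd
  rw [map_star, map_star]

theorem dd_sum {R : Type} (s : Finset R) (x : R → ∀ i, CStarMatrix (Fin (m i)) (Fin (m i)) ℂ) :
    dd e (∑ r ∈ s, x r) = ∑ r ∈ s, dd e (x r) := by
  unfold dd
  rw [map_sum, map_sum]

theorem dd_norm (x : ∀ i, CStarMatrix (Fin (m i)) (Fin (m i)) ℂ) (c : ℝ) (hc : 0 ≤ c)
    (hx : ∀ i, ‖x i‖ ≤ c) : ‖dd e x‖ ≤ c := by
  unfold dd
  rw [StarAlgEquiv.norm_map]
  exact (NonUnitalStarAlgHom.norm_apply_le (blk I (fun i => Fin (m i))) x).trans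
    ((pi_norm_le_iff_of_nonneg hc).2 hx)

theorem qf_dd {R : Type} [NonUnitalCStarAlgebra R]
    (x : ∀ i, CStarMatrix (Fin (m i)) (Fin (m i)) ℂ) (v : (Σ i, Fin (m i)) → R) :
    qf (dd e x) (fun p => v (e.symm p)) = ∑ i, qf (x i) fun p => v ⟨i, p⟩ := by
  have h1 : qf (dd e x) (fun p => v (e.symm p)) = qf (blk I (fun i => Fin (m i)) x) v := by
    unfold qf
    rw [← Equiv.sum_comp e.symm]
    refine Finset.sum_congr rfl fun p _ => ?_
    rw [← Equiv.sum_comp e.symm]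
    rfl
  rw [h1]
  unfold qf
  rw [Fintype.sum_sigma]
  refine Finset.sum_congr rfl fun i _ => Finset.sum_congr rfl fun p _ => ?_
  rw [Fintype.sum_sigma, Finset.sum_eq_single i]
  · refine Finset.sum_congr rfl fun q _ => ?_
    rw [bd_same]
  · intro j _ hj
    refine Finset.sum_eq_zero fun q _ => ?_
    rw [bd_ne I _ x i j p q (Ne.symm hj), zero_smul]
  · intro h
    exact absurd (Finset.mem_univ i) h

/-- The block diagonal sum of linear maps. -/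
def phiTot {A : Type} [CStarAlgebra A]
    (φ : ∀ i, A →ₗ[ℂ] CStarMatrix (Fin (m i)) (Fin (m i)) ℂ) :
    A →ₗ[ℂ] CStarMatrix (Fin M) (Fin M) ℂ where
  toFun a := dd e fun i => φ i a
  map_add' a b := by
    rw [← dd_add]
    congr 1
    funext i
    exact map_add (φ i) a b
  map_smul' c a := by
    rw [RingHom.id_apply, ← dd_smul]
    congr 1
    funext i
    exact map_smul (φ i) c a

theorem phiTot_cp {A : Type} [CStarAlgebra A]
    (φ : ∀ i, A →ₗ[ℂ] CStarMatrix (Fin (m i)) (Fin (m i)) ℂ) (h : ∀ i, IsCP (φ i)) :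
    IsCP (phiTot e φ) := by
  intro k a
  choose c hc using fun i => h i k a
  refine ⟨CStarMatrix.ofMatrix fun p q => dd e fun i => c i p q, ?_⟩
  refine CStarMatrix.ext fun p q => ?_
  rw [CStarMatrix.map_apply, CStarMatrix.mul_apply]
  have h1 : ∀ i, φ i ((star a * a) p q) = ∑ r, star (c i r p) * c i r q := by
    intro i
    have h2 : ((star a * a).map (φ i)) p q = (star (c i) * c i) p q := by rw [hc i]
    rw [CStarMatrix.map_apply, CStarMatrix.mul_apply] at h2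
    exact h2
  have h3 : (fun i => φ i ((star a * a) p q)) =
      ∑ r, (star (fun i => c i r p) * fun i => c i r q) := by
    funext i
    rw [h1 i, Finset.sum_apply]
    rfl
  change dd e (fun i => φ i ((star a * a) p q)) = _
  rw [h3, dd_sum]
  refine Finset.sum_congr rfl fun r _ => ?_
  rw [dd_mul, dd_star]
  rfl

theorem phiTot_norm {A : Type} [CStarAlgebra A]
    (φ : ∀ i, A →ₗ[ℂ] CStarMatrix (Fin (m i)) (Fin (m i)) ℂ) (h : ∀ i a, ‖φ i a‖ ≤ ‖a‖)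
    (a : A) : ‖phiTot e φ a‖ ≤ ‖a‖ :=
  dd_norm e _ _ (norm_nonneg a) fun i => h i a

end

theorem real_smul_conj (s : ℝ) (L : Type) [CStarAlgebra L] (y z : L) :
    star ((s : ℂ) • y) * ((s : ℂ) • z) = ((s * s : ℝ) : ℂ) • (star y * z) := by
  rw [star_smul, smul_mul_smul_comm]
  congr 1
  rw [Complex.ofReal_mul]
  congr 1
  exact Complex.conj_ofReal s

theorem qf_scal {J L : Type} [Fintype J] [CStarAlgebra L] (a : CStarMatrix J J ℂ) (v : J → L)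
    (s : ℝ) : qf a (fun p => (s : ℂ) • v p) = ((s * s : ℝ) : ℂ) • qf a v := by
  unfold qf
  rw [Finset.smul_sum]
  refine Finset.sum_congr rfl fun p _ => ?_
  rw [Finset.smul_sum]
  refine Finset.sum_congr rfl fun q _ => ?_
  rw [real_smul_conj, smul_comm]

theorem map_qf {J A L : Type} [Fintype J] [CStarAlgebra A] [CStarAlgebra L] (g : A →⋆ₐ[ℂ] L)
    (a : CStarMatrix J J ℂ) (v : J → A) : g (qf a v) = qf a (fun p => g (v p)) := by
  unfold qf
  rw [map_sum]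
  refine Finset.sum_congr rfl fun p _ => ?_
  rw [map_sum]
  refine Finset.sum_congr rfl fun q _ => ?_
  rw [map_smul, map_mul, map_star]

/-- The weighted columns. -/
def vw {I A : Type} [CStarAlgebra A] {X : Type} [TopologicalSpace X] {m : I → ℕ}
    (ζ : C(X, ℂ) →⋆ₐ[ℂ] A) (c : ∀ k, Fin (m k) → A) (l : I → C(X, ℂ)) (r : ℝ)
    (j : Σ k, Fin (m k)) : A := (r : ℂ) • (c j.1 j.2 * ζ (l j.1))

theorem pi_vw {I A L X : Type} [CStarAlgebra A] [CStarAlgebra L] [TopologicalSpace X]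
    [CompactSpace X] {m : I → ℕ} (ζ : C(X, ℂ) →⋆ₐ[ℂ] A) (π : X → A →⋆ₐ[ℂ] L)
    (hF : CtsField ζ π) (c : ∀ k, Fin (m k) → A) (l : I → C(X, ℂ)) (r : ℝ) (f : I → X → ℝ)
    (hl : ∀ k x, l k x = ((Real.sqrt (f k x) : ℝ) : ℂ)) (x : X) (k : I) (p : Fin (m k)) :
    π x (vw ζ c l r ⟨k, p⟩) = ((r * Real.sqrt (f k x) : ℝ) : ℂ) • π x (c k p) := by
  unfold vw
  rw [map_smul, map_mul, hF.scalar, ← Algebra.commutes, ← Algebra.smul_def, smul_smul, hl,
    Complex.ofReal_mul]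

theorem pi_qf {I A L X : Type} [CStarAlgebra A] [CStarAlgebra L] [TopologicalSpace X]
    [CompactSpace X] {m : I → ℕ} (ζ : C(X, ℂ) →⋆ₐ[ℂ] A) (π : X → A →⋆ₐ[ℂ] L)
    (hF : CtsField ζ π) (c : ∀ k, Fin (m k) → A) (l : I → C(X, ℂ)) (r : ℝ) (f : I → X → ℝ)
    (hl : ∀ k x, l k x = ((Real.sqrt (f k x) : ℝ) : ℂ)) (hf0 : ∀ k x, 0 ≤ f k x) (x : X) (k : I)
    (a : CStarMatrix (Fin (m k)) (Fin (m k)) ℂ) :
    π x (qf a fun p => vw ζ c l r ⟨k, p⟩) =
      ((r * r * f k x : ℝ) : ℂ) • π x (qf a (c k)) := by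
  have h8 : Real.sqrt (f k x) * Real.sqrt (f k x) = f k x := Real.mul_self_sqrt (hf0 k x)
  have h9 : (r * Real.sqrt (f k x)) * (r * Real.sqrt (f k x)) = r * r * f k x := by
    calc _ = (r * r) * (Real.sqrt (f k x) * Real.sqrt (f k x)) := by ring
      _ = _ := by rw [h8]
  rw [map_qf, map_qf]
  have h10 : (fun p => π x (vw ζ c l r ⟨k, p⟩)) =
      fun p => ((r * Real.sqrt (f k x) : ℝ) : ℂ) • π x (c k p) :=
    funext fun p => pi_vw ζ π hF c l r f hl x k p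
  rw [h10, qf_scal, h9]

theorem pi_sq {I A L X : Type} [CStarAlgebra A] [CStarAlgebra L] [TopologicalSpace X]
    [CompactSpace X] {m : I → ℕ} (ζ : C(X, ℂ) →⋆ₐ[ℂ] A) (π : X → A →⋆ₐ[ℂ] L)
    (hF : CtsField ζ π) (c : ∀ k, Fin (m k) → A) (l : I → C(X, ℂ)) (r : ℝ) (f : I → X → ℝ)
    (hl : ∀ k x, l k x = ((Real.sqrt (f k x) : ℝ) : ℂ)) (hf0 : ∀ k x, 0 ≤ f k x) (x : X) (k : I) :
    π x (∑ p, star (vw ζ c l r ⟨k, p⟩) * vw ζ c l r ⟨k, p⟩) =
      ((r * r * f k x : ℝ) : ℂ) • π x (∑ p, star (c k p) * c k p) := by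
  have h8 : Real.sqrt (f k x) * Real.sqrt (f k x) = f k x := Real.mul_self_sqrt (hf0 k x)
  have h9 : (r * Real.sqrt (f k x)) * (r * Real.sqrt (f k x)) = r * r * f k x := by
    calc _ = (r * r) * (Real.sqrt (f k x) * Real.sqrt (f k x)) := by ring
      _ = _ := by rw [h8]
  rw [map_sum, map_sum, Finset.smul_sum]
  refine Finset.sum_congr rfl fun p _ => ?_
  rw [map_mul, map_star, pi_vw ζ π hF c l r f hl, real_smul_conj, h9, map_mul, map_star]

/-- The gluing of local approximations. -/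
theorem glue (h1 : S_NSUP) (h2 : S_CPQ) {I A L X : Type} [Fintype I] [DecidableEq I]
    [CStarAlgebra A] [CStarAlgebra L] [TopologicalSpace X]
    [CompactSpace X] {m : I → ℕ} (ζ : C(X, ℂ) →⋆ₐ[ℂ] A) (π : X → A →⋆ₐ[ℂ] L)
    (hF : CtsField ζ π) (F : Finset A) (η δ : ℝ) (hη : 0 ≤ η) (hδ : 0 < δ)
    (φ : ∀ k, A →ₗ[ℂ] CStarMatrix (Fin (m k)) (Fin (m k)) ℂ) (c : ∀ k, Fin (m k) → A)
    (f : I → X → ℝ) (hfc : ∀ k, Continuous (f k)) (hf0 : ∀ k x, 0 ≤ f k x)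
    (hfs : ∀ x, ∑ k, f k x = 1) (hcp : ∀ k, IsCP (φ k)) (hcon : ∀ k a, ‖φ k a‖ ≤ ‖a‖)
    (hU : ∀ k x, f k x ≠ 0 → ‖π x (∑ p, star (c k p) * c k p)‖ ≤ 1 + δ ∧
      ∀ a ∈ F, ‖π x (qf (φ k a) (c k) - a)‖ ≤ η) :
    ∃ (M : ℕ) (Φ : A →ₗ[ℂ] CStarMatrix (Fin M) (Fin M) ℂ)
      (ψ : CStarMatrix (Fin M) (Fin M) ℂ →ₗ[ℂ] A), IsCP Φ ∧ IsCP ψ ∧ (∀ x, ‖Φ x‖ ≤ ‖x‖) ∧
      (∀ x, ‖ψ x‖ ≤ ‖x‖) ∧ ∀ a ∈ F, ‖((1 + δ : ℝ) : ℂ) • ψ (Φ a) - a‖ ≤ η := by
  obtain ⟨M, ⟨e⟩⟩ : ∃ M : ℕ, Nonempty ((Σ k, Fin (m k)) ≃ Fin M) :=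
    ⟨_, ⟨Fintype.equivFin _⟩⟩
  obtain ⟨l, hl⟩ : ∃ l : I → C(X, ℂ), ∀ k x, l k x = ((Real.sqrt (f k x) : ℝ) : ℂ) :=
    ⟨fun k => ⟨fun x => ((Real.sqrt (f k x) : ℝ) : ℂ),
      Complex.continuous_ofReal.comp (Real.continuous_sqrt.comp (hfc k))⟩, fun k x => rfl⟩
  have hδ1 : 0 < 1 + δ := by linarith
  obtain ⟨r, hr⟩ : ∃ r : ℝ, r * r = (1 + δ)⁻¹ :=
    ⟨Real.sqrt ((1 + δ)⁻¹), Real.mul_self_sqrt (inv_nonneg.2 hδ1.le)⟩
  have hv1 : ‖∑ p, star (vw ζ c l r (e.symm p)) * vw ζ c l r (e.symm p)‖ ≤ 1 := by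
    refine h1 X A L ζ π hF _ 1 zero_le_one fun x => ?_
    rw [Equiv.sum_comp e.symm (fun j => star (vw ζ c l r j) * vw ζ c l r j), Fintype.sum_sigma,
      map_sum]
    refine (norm_sum_le _ _).trans ?_
    calc _ ≤ ∑ k, f k x := by
          refine Finset.sum_le_sum fun k _ => ?_
          rw [pi_sq ζ π hF c l r f hl hf0 x k, norm_smul, Complex.norm_real, Real.norm_eq_abs,
            hr, abs_of_nonneg (mul_nonneg (inv_nonneg.2 hδ1.le) (hf0 k x))]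
          by_cases h11 : f k x = 0
          · rw [h11, mul_zero, zero_mul]
          · have h12 := (hU k x h11).1
            calc _ ≤ (1 + δ)⁻¹ * f k x * (1 + δ) :=
                  mul_le_mul_of_nonneg_left h12
                    (mul_nonneg (inv_nonneg.2 hδ1.le) (hf0 k x))
              _ = f k x := by field_simp
      _ = 1 := hfs x
  obtain ⟨ψ, hψ1, hψ2, hψ3⟩ := h2 A _ (fun p => vw ζ c l r (e.symm p)) hv1
  refine ⟨M, phiTot e φ, ψ, phiTot_cp e φ hcp, hψ1, phiTot_norm e φ hcon, hψ2, fun a ha => ?_⟩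
  have hψa : ψ (phiTot e φ a) = ∑ k, qf (φ k a) fun p => vw ζ c l r ⟨k, p⟩ := by
    rw [hψ3]
    exact qf_dd e (fun k => φ k a) (vw ζ c l r)
  refine h1 X A L ζ π hF _ η hη fun x => ?_
  have h14 : π x a = ∑ k, ((f k x : ℝ) : ℂ) • π x a := by
    rw [← Finset.sum_smul, ← Complex.ofReal_sum, hfs x, Complex.ofReal_one, one_smul]
  have h13 : π x (((1 + δ : ℝ) : ℂ) • ψ (phiTot e φ a) - a) =
      ∑ k, ((f k x : ℝ) : ℂ) • π x (qf (φ k a) (c k) - a) := by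
    have h15 : ∀ k, ((1 + δ : ℝ) : ℂ) • π x (qf (φ k a) fun p => vw ζ c l r ⟨k, p⟩) =
        ((f k x : ℝ) : ℂ) • π x (qf (φ k a) (c k)) := by
      intro k
      rw [pi_qf ζ π hF c l r f hl hf0 x k, smul_smul, ← Complex.ofReal_mul, hr, ← mul_assoc,
        mul_inv_cancel₀ hδ1.ne', one_mul]
    rw [map_sub, map_smul, hψa, map_sum, Finset.smul_sum]
    calc _ = ∑ k, ((f k x : ℝ) : ℂ) • π x (qf (φ k a) (c k)) -
          ∑ k, ((f k x : ℝ) : ℂ) • π x a := by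
          rw [← h14]
          congr 1
          exact Finset.sum_congr rfl fun k _ => h15 k
      _ = _ := by
          rw [← Finset.sum_sub_distrib]
          refine Finset.sum_congr rfl fun k _ => ?_
          rw [map_sub, smul_sub]
  rw [h13]
  refine (norm_sum_le _ _).trans ?_
  calc _ ≤ ∑ k, f k x * η := by
        refine Finset.sum_le_sum fun k _ => ?_
        rw [norm_smul, Complex.norm_real, Real.norm_eq_abs, abs_of_nonneg (hf0 k x)]
        by_cases h11 : f k x = 0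
        · rw [h11, zero_mul, zero_mul]
        · exact mul_le_mul_of_nonneg_left ((hU k x h11).2 a ha) (hf0 k x)
    _ = η := by rw [← Finset.sum_mul, hfs x, one_mul]

theorem t (h1 : S_NSUP) (h2 : S_CPQ) (h3 : S_NUA) : S_NUB := by
  classical
  intro X A L _ _ _ _ _ ζ π hF hL F ε hε
  obtain ⟨R, hR⟩ : ∃ R : ℝ, R = ∑ a ∈ F, ‖a‖ := ⟨_, rfl⟩
  have hR0 : 0 ≤ R := by
    rw [hR]
    exact Finset.sum_nonneg fun a _ => norm_nonneg a
  have hRa : ∀ a ∈ F, ‖a‖ ≤ R := fun a ha => by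
    rw [hR]
    exact Finset.single_le_sum (f := fun a => ‖a‖) (fun b _ => norm_nonneg b) ha
  obtain ⟨δ, hδdef⟩ : ∃ δ : ℝ, δ = ε / (4 * (1 + R)) := ⟨_, rfl⟩
  have hδ : 0 < δ := by rw [hδdef]; positivity
  have hδR : ∀ a ∈ F, δ * ‖a‖ < ε / 2 := by
    intro a ha
    have h4 : δ * (4 * (1 + R)) = ε := by rw [hδdef]; field_simp
    have h5 : δ * ‖a‖ ≤ δ * R := mul_le_mul_of_nonneg_left (hRa a ha) hδ.le
    nlinarith
  have hε2 : 0 < ε / 2 := by positivity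
  choose m φ c U hcp hcon hopen hmem hU using
    fun x => h3 X A L ζ π hF hL F (ε / 2) δ hε2 hδ x
  obtain ⟨s, -, hs⟩ := isCompact_univ.elim_nhds_subcover U
    (fun x _ => (hopen x).mem_nhds (hmem x))
  obtain ⟨f, hf⟩ := PartitionOfUnity.exists_isSubordinate (isClosed_univ (X := X))
    (fun k : s => U k) (fun k => hopen k) (fun x hx => by
      have h6 := hs hx
      simp only [Set.mem_iUnion] at h6 ⊢
      obtain ⟨k, hk, hxk⟩ := h6
      exact ⟨⟨k, hk⟩, hxk⟩)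
  have hfs : ∀ x, ∑ k : s, f k x = 1 := by
    intro x
    have h7 := f.sum_eq_one (Set.mem_univ x)
    rwa [finsum_eq_sum_of_fintype] at h7
  have hfU : ∀ (k : s) x, f k x ≠ 0 → x ∈ U k := fun k x hx => hf k (subset_tsupport _ hx)
  obtain ⟨M, Φ, ψ, hΦ1, hψ1, hΦ2, hψ2, hmain⟩ := glue h1 h2 (I := s) (m := fun k => m k) ζ π hF F
    (ε / 2) δ hε2.le hδ (fun k => φ k) (fun k => c k) (fun k x => f k x)
    (fun k => (f k).continuous) (fun k x => f.nonneg k x) hfs (fun k => hcp k) (fun k => hcon k)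
    (fun k x hx => ⟨(hU k x (hfU k x hx)).1.le, fun a ha => ((hU k x (hfU k x hx)).2 a ha).le⟩)
  refine ⟨M, Φ, ψ, hΦ1, hψ1, hΦ2, hψ2, fun a ha => ?_⟩
  have h15 : ψ (Φ a) - a = (((1 + δ : ℝ) : ℂ) • ψ (Φ a) - a) - ((δ : ℝ) : ℂ) • ψ (Φ a) := by
    rw [Complex.ofReal_add, Complex.ofReal_one, add_smul, one_smul]
    abel
  have h16 : ‖ψ (Φ a)‖ ≤ ‖a‖ := (hψ2 _).trans (hΦ2 a)
  rw [h15]
  refine (norm_sub_le _ _).trans_lt ?_
  rw [norm_smul, Complex.norm_real, Real.norm_eq_abs, abs_of_pos hδ]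
  have h17 := mul_le_mul_of_nonneg_left h16 hδ.le
  have h18 := hδR a ha
  have h19 := hmain a ha
  linarith

end

end Pool.Agent.Helper88.CF
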